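import Pool.Agent.Helper11.LE.Goals3
import Pool.Agent.Helper51.SigLeo.Core

/-!
# Project LE: the kernel of the `p`-adic regulator does not grow
-/

namespace Pool.Agent.Helper94.LE

open NumberField Polynomial Module IsDedekindDomain TensorProduct Pool.Agent.Helper51.SigLeo
open Pool.Agent.Helper51.RP Pool.Agent.Helper42.RD Pool.Agent.Helper11.LE

section linalg

variable {k V : Type*} [Field k] [AddCommGroup V] [Module k V]

theorem inj_prod (f : V →ₗ[k] V) (s : Finset k) (h : ∀ ξ ∈ s, ∀ v, f v = ξ • v → v = 0) :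
    ∀ v, aeval f (∏ ξ ∈ s, (X - C ξ)) v = 0 → v = 0 := by
  classical
  induction s using Finset.induction_on with
  | empty =>
    intro v hv
    rw [Finset.prod_empty, map_one] at hv
    exact hv
  | insert a s ha ih =>
    intro v hv
    rw [Finset.prod_insert ha, mul_comm, map_mul] at hv
    have h1 : aeval f (∏ ξ ∈ s, (X - C ξ)) (aeval f (X - C a) v) = 0 := hv
    have h2 := ih (fun ξ hξ => h ξ (Finset.mem_insert_of_mem hξ)) _ h1
    refine h a (Finset.mem_insert_self _ _) v ?_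
    rw [map_sub, aeval_X, aeval_C, LinearMap.sub_apply, Module.algebraMap_end_apply,
      sub_eq_zero] at h2
    exact h2

/-- An operator with `f^p = 1` without eigenvectors for the primitive `p`-th roots of unity is the
identity. -/
theorem fix_of_pow (f : V →ₗ[k] V) {p : ℕ} (hp : p.Prime) {ζ : k} (hζ : IsPrimitiveRoot ζ p)
    (hf : ∀ v, (f ^ p) v = v) (h : ∀ ξ : k, IsPrimitiveRoot ξ p → ∀ v, f v = ξ • v → v = 0) (v : V) :
    f v = v := by
  classical
  have h1 : aeval f (X ^ p - 1 : k[X]) v = 0 := by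
    rw [map_sub, map_pow, aeval_X, map_one, LinearMap.sub_apply, hf, Module.End.one_apply, sub_self]
  have hmem : (1 : k) ∈ nthRootsFinset p (1 : k) := by
    rw [mem_nthRootsFinset hp.pos, one_pow]
  rw [X_pow_sub_one_eq_prod hp.pos hζ, ← Finset.prod_erase_mul _ _ hmem, map_mul] at h1
  have h2 : aeval f (∏ ξ ∈ (nthRootsFinset p (1 : k)).erase 1, (X - C ξ))
      (aeval f (X - C (1 : k)) v) = 0 := h1
  have h3 := inj_prod f _ (fun ξ hξ v hv => by
    rw [Finset.mem_erase, mem_nthRootsFinset hp.pos] at hξ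
    refine h ξ ?_ v hv
    rw [IsPrimitiveRoot.iff_orderOf]
    have := Fact.mk hp
    exact orderOf_eq_prime hξ.2 hξ.1) _ h2
  rw [map_sub, aeval_X, aeval_C, LinearMap.sub_apply, Module.algebraMap_end_apply, one_smul,
    sub_eq_zero] at h3
  exact h3

end linalg

section bc

variable (k : Type*) {A B C' : Type*} [Field k] [AddCommGroup A] [AddCommGroup B] [AddCommGroup C']

/-- The `k`-linear extension of a homomorphism. -/
noncomputable def bc (f : A →+ B) : (k ⊗[ℤ] A) →ₗ[k] (k ⊗[ℤ] B) :=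
  f.toIntLinearMap.baseChange k

variable {k}

theorem bc_tmul (f : A →+ B) (c : k) (a : A) : bc k f (c ⊗ₜ a) = c ⊗ₜ f a := by
  simp [bc]

theorem bc_comp (f : A →+ B) (g : B →+ C') (z : k ⊗[ℤ] A) : bc k g (bc k f z) = bc k (g.comp f) z := by
  induction z using TensorProduct.induction_on with
  | zero => simp
  | tmul x y => rw [bc_tmul, bc_tmul, bc_tmul]; rfl
  | add x y hx hy => rw [map_add, map_add, map_add, hx, hy]

theorem bc_nsmul (n : ℕ) (z : k ⊗[ℤ] A) : bc k (n • AddMonoidHom.id A) z = (n : k) • z := by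
  induction z using TensorProduct.induction_on with
  | zero => simp
  | tmul x y =>
    rw [bc_tmul, AddMonoidHom.smul_apply, AddMonoidHom.id_apply, TensorProduct.smul_tmul',
      Nat.cast_smul_eq_nsmul]
    exact TensorProduct.tmul_smul n x y
  | add x y hx hy => rw [map_add, hx, hy, smul_add]

theorem bc_sum {ι : Type*} (s : Finset ι) (f : ι → A →+ B) (z : k ⊗[ℤ] A) :
    bc k (∑ i ∈ s, f i) z = ∑ i ∈ s, bc k (f i) z := by
  induction z using TensorProduct.induction_on with
  | zero => simp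
  | tmul x y =>
    simp_rw [bc_tmul]
    rw [AddMonoidHom.finsetSum_apply, TensorProduct.tmul_sum]
  | add x y hx hy => simp_rw [map_add]; rw [hx, hy, Finset.sum_add_distrib]

theorem extHom_bc (f : A →+ B) (g : B →+ k) (z : k ⊗[ℤ] A) :
    extHom g (bc k f z) = extHom (g.comp f) z := by
  induction z using TensorProduct.induction_on with
  | zero => simp
  | tmul x y => rw [bc_tmul, extHom_tmul, extHom_tmul]; rfl
  | add x y hx hy => rw [map_add, map_add, map_add, hx, hy]

theorem extEnd_eq (f : A →+ A) (z : k ⊗[ℤ] A) : extEnd f z = bc k f z := rfl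

end bc

section units

variable {K N : Type} [Field K] [Field N] [Algebra K N]

/-- The inclusion of the units. -/
noncomputable def inc : Additive (𝓞 K)ˣ →+ Additive (𝓞 N)ˣ :=
  MonoidHom.toAdditive (Units.map (algebraMap (𝓞 K) (𝓞 N) : 𝓞 K →* 𝓞 N))

/-- The norm of the units. -/
noncomputable def nm : Additive (𝓞 N)ˣ →+ Additive (𝓞 K)ˣ :=
  MonoidHom.toAdditive (Units.map (RingOfIntegers.norm K : 𝓞 N →* 𝓞 K))

theorem add_ext {u v : Additive (𝓞 N)ˣ}
    (h : (((u.toMul : (𝓞 N)ˣ) : 𝓞 N) : N) = ((v.toMul : (𝓞 N)ˣ) : 𝓞 N)) : u = v := by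
  apply Additive.toMul.injective
  apply Units.ext
  exact RingOfIntegers.ext h

theorem nm_inc : (nm : Additive (𝓞 N)ˣ →+ Additive (𝓞 K)ˣ).comp inc =
    finrank K N • AddMonoidHom.id (Additive (𝓞 K)ˣ) := by
  refine AddMonoidHom.ext fun u => ?_
  apply add_ext
  have h1 : (finrank K N • AddMonoidHom.id (Additive (𝓞 K)ˣ)) u = finrank K N • u := rfl
  rw [h1, toMul_nsmul, Units.val_pow_eq_pow_val]
  exact congrArg _ (RingOfIntegers.norm_algebraMap (L := N) K (u.toMul : 𝓞 K))

theorem inc_nm [FiniteDimensional K N] [IsGalois K N] :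
    (inc : Additive (𝓞 K)ˣ →+ Additive (𝓞 N)ˣ).comp nm =
      ∑ σ : N ≃ₐ[K] N, unitsHom σ := by
  refine AddMonoidHom.ext fun u => ?_
  apply add_ext
  rw [AddMonoidHom.finsetSum_apply, toMul_sum, Units.coe_prod]
  have h := Algebra.norm_eq_prod_automorphisms K (((u.toMul : (𝓞 N)ˣ) : 𝓞 N) : N)
  have h2 : (((∏ σ : N ≃ₐ[K] N, ((unitsHom σ u).toMul : (𝓞 N)ˣ).val : 𝓞 N)) : N) =
      ∏ σ : N ≃ₐ[K] N, σ (((u.toMul : (𝓞 N)ˣ) : 𝓞 N) : N) := by
    rw [RingOfIntegers.coe_eq_algebraMap, map_prod]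
    exact Finset.prod_congr rfl fun σ _ => unitsHom_apply σ u
  rw [h2, ← h]
  rfl

variable {p : ℕ} {k : Type} [NormedField k] (L : IwasawaLog p k)

theorem log_inc (τ : N →+* k) :
    (logUnits L τ).comp (inc : Additive (𝓞 K)ˣ →+ Additive (𝓞 N)ˣ) =
      logUnits L (τ.comp (algebraMap K N)) := by
  ext u
  rfl

theorem log_unitsHom (τ : N →+* k) (σ : N ≃ₐ[K] N) :
    (logUnits L τ).comp (unitsHom σ) = logUnits L (τ.comp (σ : N →+* N)) := by
  ext u
  rfl

theorem mem_LKer {z : k ⊗[ℤ] Additive (𝓞 N)ˣ} :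
    z ∈ LKer L N ↔ ∀ τ : N →+* k, extHom (logUnits L τ) z = 0 := by
  simp [LKer, Submodule.mem_iInf, LinearMap.mem_ker]

theorem extEnd_pow (σ : N ≃ₐ[K] N) (n : ℕ) (z : k ⊗[ℤ] Additive (𝓞 N)ˣ) :
    ((extEnd (unitsHom σ) : (k ⊗[ℤ] Additive (𝓞 N)ˣ) →ₗ[k] _) ^ n) z =
      extEnd (unitsHom (σ ^ n)) z := by
  induction n generalizing z with
  | zero => rw [pow_zero, pow_zero, unitsHom_one, extEnd_id, Module.End.one_apply]
  | succ n ih => rw [pow_succ, Module.End.mul_apply, ih, pow_succ, unitsHom_mul, extEnd_comp]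

end units

/-- The kernel does not grow. -/
theorem defect_eq {p : ℕ} (hp : p.Prime) {k : Type} [NormedField k] [CharZero k] [IsAlgClosed k]
    (L : IwasawaLog p k) {K N : Type} [Field K] [NumberField K] [Field N] [NumberField N]
    [Algebra K N] [IsGalois K N] (hd : finrank K N = p)
    (hN : NGood L (Set.univ : Set (K →+* k)) N) : defect L N = defect L K := by
  classical
  have hpk : (p : k) ≠ 0 := Nat.cast_ne_zero.2 hp.ne_zero
  have : NeZero (p : k) := ⟨hpk⟩
  obtain ⟨ζ, hζ⟩ : ∃ ζ : k, IsPrimitiveRoot ζ p := by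
    exact HasEnoughRootsOfUnity.exists_primitiveRoot k p
  -- the kernel is stable under the Galois group
  have hst : ∀ (σ : N ≃ₐ[K] N), ∀ z ∈ LKer L N,
      (extEnd (unitsHom σ) : (k ⊗[ℤ] Additive (𝓞 N)ˣ) →ₗ[k] _) z ∈ LKer L N := by
    intro σ z hz
    rw [mem_LKer] at hz ⊢
    intro τ
    rw [extEnd_eq, extHom_bc, log_unitsHom]
    exact hz _
  -- the Galois group acts trivially on the kernel
  have hfix : ∀ (σ : N ≃ₐ[K] N), ∀ z ∈ LKer L N,
      (extEnd (unitsHom σ) : (k ⊗[ℤ] Additive (𝓞 N)ˣ) →ₗ[k] _) z = z := by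
    intro σ z hz
    have hσ : σ ^ p = 1 := by
      rw [← hd, ← IsGalois.card_aut_eq_finrank, pow_card_eq_one']
    have h1 := fix_of_pow ((extEnd (unitsHom σ) :
      (k ⊗[ℤ] Additive (𝓞 N)ˣ) →ₗ[k] _).restrict (hst σ)) hp hζ (fun v => by
        apply Subtype.ext
        have h2 : ∀ n : ℕ, (((((extEnd (unitsHom σ) :
            (k ⊗[ℤ] Additive (𝓞 N)ˣ) →ₗ[k] _).restrict (hst σ)) ^ n) v : LKer L N) :
              k ⊗[ℤ] Additive (𝓞 N)ˣ) = ((extEnd (unitsHom σ) :
            (k ⊗[ℤ] Additive (𝓞 N)ˣ) →ₗ[k] _) ^ n) (v : k ⊗[ℤ] Additive (𝓞 N)ˣ) := by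
          intro n
          induction n with
          | zero => rfl
          | succ n ih =>
            rw [pow_succ', Module.End.mul_apply, LinearMap.coe_restrict_apply, ih, pow_succ',
              Module.End.mul_apply]
        rw [h2, extEnd_pow, hσ, unitsHom_one, extEnd_id]) (fun ξ hξ v hv => by
        apply Subtype.ext
        refine hN σ ξ hξ v ?_ fun τ _ => ?_
        · have := congrArg Subtype.val hv
          exact this
        · exact (mem_LKer L).1 v.2 τ) ⟨z, hz⟩
    exact congrArg Subtype.val h1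
  -- the inclusion and the norm
  have hnm : ∀ z : k ⊗[ℤ] Additive (𝓞 K)ˣ,
      bc k (nm : Additive (𝓞 N)ˣ →+ Additive (𝓞 K)ˣ) (bc k inc z) = (p : k) • z := by
    intro z
    rw [bc_comp, nm_inc, bc_nsmul, hd]
  have hinj : Function.Injective (bc k (inc : Additive (𝓞 K)ˣ →+ Additive (𝓞 N)ˣ)) := by
    rw [injective_iff_map_eq_zero]
    intro z hz
    have h1 := hnm z
    rw [hz, map_zero] at h1
    exact (smul_eq_zero.1 h1.symm).resolve_left hpk
  have hlog : ∀ (τ : N →+* k) (z : k ⊗[ℤ] Additive (𝓞 K)ˣ),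
      extHom (logUnits L τ) (bc k (inc : Additive (𝓞 K)ˣ →+ Additive (𝓞 N)ˣ) z) =
        extHom (logUnits L (τ.comp (algebraMap K N))) z := by
    intro τ z
    rw [extHom_bc, log_inc]
  have hmap : (LKer L K).map (bc k (inc : Additive (𝓞 K)ˣ →+ Additive (𝓞 N)ˣ)) = LKer L N := by
    apply le_antisymm
    · rintro _ ⟨z, hz, rfl⟩
      rw [mem_LKer]
      intro τ
      rw [hlog]
      exact (mem_LKer L).1 hz _
    · intro z hz
      have h1 : bc k (inc : Additive (𝓞 K)ˣ →+ Additive (𝓞 N)ˣ) ((p : k)⁻¹ • bc k nm z) = z := by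
        rw [map_smul, bc_comp, inc_nm, bc_sum]
        have h2 : ∀ σ ∈ (Finset.univ : Finset (N ≃ₐ[K] N)), bc k (unitsHom σ) z = z :=
          fun σ _ => hfix σ z hz
        rw [Finset.sum_congr rfl h2, Finset.sum_const, Finset.card_univ, ← Nat.card_eq_fintype_card,
          IsGalois.card_aut_eq_finrank, hd, ← Nat.cast_smul_eq_nsmul k, smul_smul,
          inv_mul_cancel₀ hpk, one_smul]
      refine ⟨(p : k)⁻¹ • bc k nm z, ?_, h1⟩
      show _ ∈ LKer L K
      rw [mem_LKer]
      intro τ₀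
      let _ : Algebra K k := τ₀.toAlgebra
      let τ : N →ₐ[K] k := IsAlgClosed.lift
      have h2 : (τ : N →+* k).comp (algebraMap K N) = τ₀ := by
        ext x
        exact τ.commutes x
      rw [← h2, ← hlog, h1]
      exact (mem_LKer L).1 hz _
  unfold defect
  rw [← hmap]
  exact (LinearEquiv.finrank_eq (Submodule.equivMapOfInjective _ hinj (LKer L K))).symm

theorem rank_le (K : Type) [Field K] [NumberField K] : Units.rank K + 1 ≤ finrank ℚ K := by
  classical
  have h1 := InfinitePlace.card_add_two_mul_card_eq_rank K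
  have h2 : Fintype.card (InfinitePlace K) = InfinitePlace.nrRealPlaces K +
      InfinitePlace.nrComplexPlaces K := InfinitePlace.card_eq_nrRealPlaces_add_nrComplexPlaces K
  have h3 : 0 < Fintype.card (InfinitePlace K) := Fintype.card_pos
  unfold Units.rank
  omega

theorem nonempty_hom (F A : Type) [Field F] [Field A] [Algebra F A] [IsAlgClosed A] :
    Nonempty (AlgebraicClosure F →+* A) :=
  ⟨(IsAlgClosed.lift (R := F) (S := AlgebraicClosure F) (M := A)).toRingHom⟩

theorem f_leo (h1 : F_INF) : Pool.Agent.Helper11.LE.F_LEO := by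
  intro p hp hp2 L K _ _
  have hne : Nonempty (AlgebraicClosure ℚ →+* ℂ_[p]) :=
    nonempty_hom ℚ ℂ_[p]
  have hT : Units.rank K + 1 ≤ (Set.univ : Set (K →+* ℂ_[p])).ncard := by
    rw [Set.ncard_univ, Nat.card_eq_fintype_card, NumberField.Embeddings.card K ℂ_[p]]
    exact rank_le K
  have h := h1 p hp2 ℂ_[p] hne L K Set.univ (fun σ τ _ => by simp) hT
  refine h.mono ?_
  rintro N ⟨hd, hg, hN⟩
  have : FiniteDimensional K N := FiniteDimensional.of_finrank_pos (by rw [hd]; exact hp.out.pos)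
  have : NumberField N := NumberField.of_module_finite K N
  have := hg
  exact ⟨hd, hg, defect_eq hp.out L hd hN⟩

end Pool.Agent.Helper94.LE
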